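import Pool.Agent.Helper20.RL.St2

/-!
# Project RL (MP_cb927e_an), module LCC: absorption
-/

set_option autoImplicit false

open MeasureTheory Set Filter Topology
open scoped ENNReal RealInnerProductSpace

namespace Pool.Agent.Helper81.RL

open Pool.Agent.Helper68.LM (Pl BB Bd Av HL ft fm DQ)
open Pool.Agent.Helper20.RG Pool.Agent.Helper20.RL

theorem LCC_cnt (N : ℕ) (Z : ℕ → Set Pl) (z : Pl) :
    ((({j : ℕ | j < N ∧ z ∈ Z j}).ncard : ℕ) : ℝ≥0∞) =
      ∑ j ∈ Finset.range N, (Z j).indicator (fun _ => (1 : ℝ≥0∞)) z := by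
  classical
  have h1 : {j : ℕ | j < N ∧ z ∈ Z j} = ↑((Finset.range N).filter (fun j => z ∈ Z j)) := by
    ext j
    simp
  rw [h1, Set.ncard_coe_finset, Finset.card_filter]
  push_cast
  refine Finset.sum_congr rfl fun j _ => ?_
  by_cases h : z ∈ Z j <;> simp [h]

theorem LCC_geo (n : ℕ) : ∑ i ∈ Finset.range n, ((1 : ℝ) / 4) ^ i ≤ 2 := by
  have : ∑ i ∈ Finset.range n, ((1 : ℝ) / 4) ^ i = 4 / 3 - 4 / 3 * (1 / 4) ^ n := by
    induction n with
    | zero => simp
    | succ n ih =>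
      rw [Finset.sum_range_succ, ih, pow_succ]
      ring
  rw [this]
  have : (0 : ℝ) ≤ (1 / 4) ^ n := by positivity
  linarith

theorem LCC_pow (I : Finset ℕ) {m N : ℝ} (hm : 0 ≤ m) (hN : 0 ≤ N) (h : ∀ i ∈ I, 2 ^ i * m ≤ N) :
    ∑ i ∈ I, 2 ^ (i + 1) * m ≤ 4 * N := by
  rcases I.eq_empty_or_nonempty with rfl | hI
  · simp
    exact hN
  · have hM := h _ (I.max'_mem hI)
    set M := I.max' hI with hMd
    have h1 : I ⊆ Finset.range (M + 1) := by
      intro i hi
      rw [Finset.mem_range]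
      have := I.le_max' i hi
      omega
    have h2 : ∑ i ∈ I, 2 ^ (i + 1) * m ≤ ∑ i ∈ Finset.range (M + 1), 2 ^ (i + 1) * m :=
      Finset.sum_le_sum_of_subset_of_nonneg h1 (fun i _ _ => by positivity)
    have h3 : ∀ k : ℕ, ∑ i ∈ Finset.range k, 2 ^ (i + 1) * m = 2 * (2 ^ k - 1) * m := by
      intro k
      induction k with
      | zero => simp
      | succ k ih =>
        rw [Finset.sum_range_succ, ih, pow_succ]
        ring
    rw [h3, pow_succ] at h2
    nlinarith

theorem hLCC : StLCC := by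
  intro N F Z m₀ e₁ e₂ hF hFt hZ hm₀ he₁ he₂ hs hdis
  classical
  set T : ℝ≥0∞ := ∑ j ∈ Finset.range N, volume (Z j) with hT
  set c : Pl → ℕ := fun z => ({j : ℕ | j < N ∧ z ∈ Z j}).ncard with hc
  have hcnt : ∀ z, ((c z : ℕ) : ℝ≥0∞) =
      ∑ j ∈ Finset.range N, (Z j).indicator (fun _ => (1 : ℝ≥0∞)) z := fun z => LCC_cnt N Z z
  have hmeas : Measurable fun z => ((c z : ℕ) : ℝ≥0∞) := by
    simp only [hcnt]
    refine Finset.measurable_fun_sum _ fun j hj => ?_
    exact measurable_const.indicator (hZ j (Finset.mem_range.1 hj)).1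
  have hTint : T = ∫⁻ z, ((c z : ℕ) : ℝ≥0∞) := by
    simp only [hcnt]
    rw [lintegral_finsetSum']
    · rw [hT]
      refine Finset.sum_congr rfl fun j hj => ?_
      rw [lintegral_indicator (hZ j (Finset.mem_range.1 hj)).1, setLIntegral_const, one_mul]
    · intro j hj
      exact (measurable_const.indicator (hZ j (Finset.mem_range.1 hj)).1).aemeasurable
  have hTfin : T ≠ ∞ := by
    rw [hT]
    refine (ENNReal.sum_lt_top.2 fun j hj => ?_).ne
    exact (measure_mono (hZ j (Finset.mem_range.1 hj)).2).trans_lt (lt_top_iff_ne_top.2 hFt)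
  have hcN : ∀ z, c z ≤ N := by
    intro z
    have h1 : {j : ℕ | j < N ∧ z ∈ Z j} ⊆ ↑(Finset.range N) := by
      intro j hj
      simp only [Finset.coe_range, Set.mem_Iio]
      exact hj.1
    have := Set.ncard_le_ncard h1 (Finset.finite_toSet _)
    rw [Set.ncard_coe_finset, Finset.card_range] at this
    exact this
  have hcF : ∀ z, z ∉ F → c z = 0 := by
    intro z hz
    have h1 : {j : ℕ | j < N ∧ z ∈ Z j} = ∅ := by
      ext j
      simp only [Set.mem_setOf_eq, Set.mem_empty_iff_false, iff_false, not_and]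
      intro hj hzj
      exact hz ((hZ j hj).2 hzj)
    simp only [hc, h1, Set.ncard_empty]
  set I : Finset ℕ := (Finset.range (N + 1)).filter (fun i => 2 ^ i * m₀ ≤ (N : ℝ)) with hI
  set V : ℕ → Set Pl := fun i => {z | 2 ^ i * m₀ ≤ ((c z : ℕ) : ℝ)} with hV
  have hVm : ∀ i, MeasurableSet (V i) := by
    intro i
    have h1 : V i = {z | ENNReal.ofReal (2 ^ i * m₀) ≤ ((c z : ℕ) : ℝ≥0∞)} := by
      ext z
      simp only [hV, Set.mem_setOf_eq]
      rw [← ENNReal.ofReal_natCast, ENNReal.ofReal_le_ofReal_iff (Nat.cast_nonneg _)]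
    rw [h1]
    exact measurableSet_le measurable_const hmeas
  -- pointwise bound
  have hpt : ∀ z, ((c z : ℕ) : ℝ≥0∞) ≤ F.indicator (fun _ => ENNReal.ofReal m₀) z +
      ∑ i ∈ I, (V i).indicator (fun _ => ENNReal.ofReal (2 ^ (i + 1) * m₀)) z := by
    intro z
    by_cases hz : z ∈ F
    · rcases lt_or_ge ((c z : ℕ) : ℝ) m₀ with h1 | h1
      · refine le_trans ?_ le_self_add
        rw [Set.indicator_of_mem hz, ← ENNReal.ofReal_natCast]
        exact ENNReal.ofReal_le_ofReal h1.le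
      · obtain ⟨i, hi1, hi2⟩ := exists_nat_pow_near (x := ((c z : ℕ) : ℝ) / m₀) (y := 2)
          (by rwa [le_div_iff₀ (by linarith), one_mul]) (by norm_num)
        rw [le_div_iff₀ (by linarith)] at hi1
        rw [div_lt_iff₀ (by linarith)] at hi2
        have hcN' : ((c z : ℕ) : ℝ) ≤ N := by exact_mod_cast hcN z
        have hiN : 2 ^ i * m₀ ≤ (N : ℝ) := hi1.trans hcN'
        have hiI : i ∈ I := by
          rw [hI, Finset.mem_filter, Finset.mem_range]
          refine ⟨?_, hiN⟩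
          have h2 : (2 : ℝ) ^ i ≤ N := by
            have : (2 : ℝ) ^ i * 1 ≤ 2 ^ i * m₀ := mul_le_mul_of_nonneg_left hm₀ (by positivity)
            linarith
          have h3 : (2 : ℕ) ^ i ≤ N := by exact_mod_cast h2
          have h4 : i < 2 ^ i := Nat.lt_two_pow_self
          omega
        refine le_trans ?_ le_add_self
        refine le_trans ?_ (Finset.single_le_sum (f := fun i =>
          (V i).indicator (fun _ => ENNReal.ofReal (2 ^ (i + 1) * m₀)) z)
          (fun _ _ => zero_le) hiI)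
        rw [Set.indicator_of_mem (show z ∈ V i from hi1), ← ENNReal.ofReal_natCast]
        exact ENNReal.ofReal_le_ofReal hi2.le
    · rw [hcF z hz]
      simp
  -- integrate
  have hint : T ≤ ENNReal.ofReal m₀ * volume F +
      ∑ i ∈ I, ENNReal.ofReal (2 ^ (i + 1) * m₀) * volume (V i) := by
    rw [hTint]
    refine (lintegral_mono hpt).trans ?_
    rw [lintegral_add_left (measurable_const.indicator hF), lintegral_indicator hF,
      setLIntegral_const, lintegral_finsetSum']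
    · refine add_le_add le_rfl (Finset.sum_le_sum fun i _ => ?_)
      rw [lintegral_indicator (hVm i), setLIntegral_const]
    · intro i _
      exact (measurable_const.indicator (hVm i)).aemeasurable
  have hstep : ∀ i ∈ I, ENNReal.ofReal (2 ^ (i + 1) * m₀) * volume (V i) ≤
      ENNReal.ofReal (2 ^ (i + 1) * m₀ * (e₁ + e₂ / (2 ^ i * m₀) ^ 3)) * T := by
    intro i _
    have h1 := hdis (2 ^ i * m₀) (by
      have : (1 : ℝ) ≤ 2 ^ i := one_le_pow₀ (by norm_num)
      nlinarith)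
    rw [ENNReal.ofReal_mul (p := 2 ^ (i + 1) * m₀) (by positivity), mul_assoc]
    exact mul_le_mul_right h1 _
  have hsum : ∑ i ∈ I, 2 ^ (i + 1) * m₀ * (e₁ + e₂ / (2 ^ i * m₀) ^ 3) ≤ 1 / 2 := by
    have h1 : ∀ i : ℕ, 2 ^ (i + 1) * m₀ * (e₁ + e₂ / (2 ^ i * m₀) ^ 3) =
        e₁ * (2 ^ (i + 1) * m₀) + 2 * e₂ / m₀ ^ 2 * (1 / 4) ^ i := by
      intro i
      have : (4 : ℝ) ^ i = 2 ^ i * 2 ^ i := by
        rw [← mul_pow]; norm_num
      rw [one_div, inv_pow, this]
      field_simp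
      ring
    simp only [h1]
    rw [Finset.sum_add_distrib, ← Finset.mul_sum, ← Finset.mul_sum]
    have h2 : ∑ i ∈ I, 2 ^ (i + 1) * m₀ ≤ 4 * N := by
      refine LCC_pow I (by linarith) (Nat.cast_nonneg _) fun i hi => ?_
      exact (Finset.mem_filter.1 hi).2
    have h3 : ∑ i ∈ I, ((1 : ℝ) / 4) ^ i ≤ 2 :=
      (Finset.sum_le_sum_of_subset_of_nonneg (Finset.filter_subset _ _)
        (fun i _ _ => by positivity)).trans (LCC_geo (N + 1))
    have h4 : e₁ * ∑ i ∈ I, 2 ^ (i + 1) * m₀ ≤ e₁ * (4 * N) := mul_le_mul_of_nonneg_left h2 he₁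
    have h5 : 2 * e₂ / m₀ ^ 2 * ∑ i ∈ I, ((1 : ℝ) / 4) ^ i ≤ 2 * e₂ / m₀ ^ 2 * 2 :=
      mul_le_mul_of_nonneg_left h3 (by positivity)
    have h6 : 2 * e₂ / m₀ ^ 2 * 2 = 4 * e₂ / m₀ ^ 2 := by ring
    linarith
  have hfin : T ≤ ENNReal.ofReal m₀ * volume F + ENNReal.ofReal (1 / 2) * T := by
    refine hint.trans (add_le_add le_rfl ?_)
    refine (Finset.sum_le_sum hstep).trans ?_
    rw [← Finset.sum_mul, ← ENNReal.ofReal_sum_of_nonneg]
    · exact mul_le_mul_left (ENNReal.ofReal_le_ofReal hsum) _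
    · intro i _
      positivity
  -- to real numbers
  have hR : T.toReal ≤ m₀ * (volume F).toReal + 1 / 2 * T.toReal := by
    have h1 := ENNReal.toReal_mono (by
      refine ENNReal.add_ne_top.2 ⟨ENNReal.mul_ne_top ENNReal.ofReal_ne_top hFt,
        ENNReal.mul_ne_top ENNReal.ofReal_ne_top hTfin⟩) hfin
    rw [ENNReal.toReal_add (ENNReal.mul_ne_top ENNReal.ofReal_ne_top hFt)
      (ENNReal.mul_ne_top ENNReal.ofReal_ne_top hTfin), ENNReal.toReal_mul, ENNReal.toReal_mul,
      ENNReal.toReal_ofReal (by linarith), ENNReal.toReal_ofReal (by norm_num)] at h1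
    exact h1
  rw [← ENNReal.ofReal_toReal hTfin, ← ENNReal.ofReal_toReal hFt, ← ENNReal.ofReal_mul (by linarith)]
  apply ENNReal.ofReal_le_ofReal
  linarith

end Pool.Agent.Helper81.RL
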