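import Pool.Agent.Helper20.RL.St3

/-!
# Project RL (MP_cb927e_an), module LRS: rescaling
-/

set_option autoImplicit false

open MeasureTheory Set Filter Topology
open scoped ENNReal RealInnerProductSpace

namespace Pool.Agent.Helper81.RL

open Pool.Agent.Helper68.LM (Pl BB Bd Av HL ft fm DQ)
open Pool.Agent.Helper20.RG Pool.Agent.Helper20.RL

theorem LRS_ind (F : Set Pl) (t : ℤ) (z : Pl) :
    ({z : Pl | (2 : ℝ) ^ t • z ∈ F}.indicator 1 z : ℝ) = F.indicator 1 ((2 : ℝ) ^ t • z) := by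
  classical
  by_cases h : (2 : ℝ) ^ t • z ∈ F
  · rw [Set.indicator_of_mem h, Set.indicator_of_mem (show z ∈ {z : Pl | (2 : ℝ) ^ t • z ∈ F} from h)]
    rfl
  · rw [Set.indicator_of_notMem h,
      Set.indicator_of_notMem (show z ∉ {z : Pl | (2 : ℝ) ^ t • z ∈ F} from h)]

theorem hLRS : StLRS := by
  refine ⟨?_, ?_, ?_, ?_⟩
  · intro F t k s c m ℓ x
    have h2 : (2 : ℝ) ≠ 0 := by norm_num
    unfold Y Av
    congr 1
    funext w
    congr 1
    funext v
    rw [LRS_ind]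
    congr 1
    have e1 : (2 : ℝ) ^ t * (2 : ℝ) ^ (k - t) = 2 ^ k := by
      rw [← zpow_add₀ h2]; congr 1; ring
    have e2 : (2 : ℝ) ^ t * (2 * (2 : ℝ) ^ (k - t - (m : ℤ))) = 2 * 2 ^ (k - (m : ℤ)) := by
      rw [mul_left_comm, ← zpow_add₀ h2]; congr 2; ring
    rw [smul_sub, smul_sub, smul_sub, smul_smul, smul_smul, smul_smul, e1, e2, ← mul_assoc, e1]
  · intro S t
    have h2 : (2 : ℝ) ^ t ≠ 0 := by positivity
    have h := Measure.addHaar_preimage_smul (volume : Measure Pl) h2 S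
    have e : {x : Pl | (2 : ℝ) ^ t • x ∈ S} = (fun x => (2 : ℝ) ^ t • x) ⁻¹' S := rfl
    rw [e, h]
    congr 2
    have hf : Module.finrank ℝ Pl = 2 := by simp [Pl]
    rw [hf, abs_of_nonneg (by positivity), zpow_neg]
    congr 1
    rw [← zpow_natCast, ← zpow_mul, mul_comm, zpow_mul]
    norm_num
  · rintro F t ⟨h1, h2⟩
    have e : {x : Pl | (2 : ℝ) ^ t • x ∈ F} = (fun x => (2 : ℝ) ^ t • x) ⁻¹' F := rfl
    refine ⟨?_, ?_⟩
    · rw [e]
      exact (measurable_const_smul _) h1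
    · have e2 : {x : Pl | (2 : ℝ) ^ t • x ∈ F} = (fun x => ((2 : ℝ) ^ t)⁻¹ • x) '' F := by
        ext x
        constructor
        · intro hx
          refine ⟨_, hx, ?_⟩
          simp only
          rw [smul_smul, inv_mul_cancel₀ (by positivity), one_smul]
        · rintro ⟨y, hy, rfl⟩
          show (2 : ℝ) ^ t • ((2 : ℝ) ^ t)⁻¹ • y ∈ F
          rw [smul_smul, mul_inv_cancel₀ (by positivity), one_smul]
          exact hy
      rw [e2]
      exact h2.smul₀ _
  · intro y t r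
    have h2 : (0 : ℝ) < 2 ^ t := by positivity
    ext z
    unfold Sq
    simp only [Set.mem_setOf_eq, PiLp.smul_apply, smul_eq_mul]
    rw [← mul_sub, ← mul_sub, abs_mul, abs_mul, abs_of_pos h2, mul_le_mul_iff_right₀ h2,
      mul_le_mul_iff_right₀ h2]

end Pool.Agent.Helper81.RL
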