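import Pool.Agent.Helper20.RL.St2

/-!
# Project RL (MP_cb927e_an), module LCR: the core estimate
-/

set_option autoImplicit false

open MeasureTheory Set Filter Topology
open scoped ENNReal RealInnerProductSpace

namespace Pool.Agent.Helper81.RL

open Pool.Agent.Helper68.LM (Pl BB Bd Av HL ft fm DQ)
open Pool.Agent.Helper20.RG Pool.Agent.Helper20.RL

theorem LCR_two {u : ℕ} (hu : 7 ≤ u) : 2 * u ^ 2 ≤ 2 ^ u := by
  induction u, hu using Nat.le_induction with
  | base => norm_num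
  | succ n hn ih =>
    have h : (2 : ℕ) ^ (n + 1) = 2 * 2 ^ n := pow_succ' 2 n
    rw [h]
    nlinarith

/-- Pigeonhole over the size of the terms. -/
theorem LCR_pig {u : ℕ} (hu : 66 ≤ u) (v : ℕ → ℝ) (hv0 : ∀ j < 2 ^ u, 0 ≤ v j)
    (hv1 : ∀ j < 2 ^ u, v j ≤ 1) (hs : 1 / (u : ℝ) ^ 2 ≤ ∑ j ∈ Finset.range (2 ^ u), v j) :
    ∃ i ≤ 2 * u, max 1 (1 / ((u : ℝ) ^ 4 * (1 / 2) ^ (i + 1))) ≤
      (((Finset.range (2 ^ u)).filter (fun j => ((1 : ℝ) / 2) ^ (i + 1) ≤ v j)).card : ℝ) := by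
  by_contra hcon
  push Not at hcon
  have hu0 : (66 : ℝ) ≤ u := by exact_mod_cast hu
  have hup : (0 : ℝ) < u := by linarith
  set N : ℕ := 2 ^ u with hN
  have hNR : ((N : ℕ) : ℝ) = 2 ^ u := by rw [hN]; push_cast; rfl
  have hNpos : (0 : ℝ) < N := by rw [hNR]; positivity
  set δ : ℝ := 1 / (2 * (u : ℝ) ^ 2 * N) with hδ
  have hδ0 : 0 < δ := by rw [hδ]; positivity
  set J := (Finset.range N).filter (fun j => δ ≤ v j) with hJ
  -- the small terms
  have h1 : ∑ j ∈ Finset.range N, v j ≤ ∑ j ∈ J, v j + 1 / (2 * (u : ℝ) ^ 2) := by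
    rw [← Finset.sum_filter_add_sum_filter_not (Finset.range N) (fun j => δ ≤ v j)]
    refine add_le_add le_rfl ?_
    have h2 : ∑ j ∈ (Finset.range N).filter (fun j => ¬ δ ≤ v j), v j ≤
        ∑ _j ∈ (Finset.range N).filter (fun j => ¬ δ ≤ v j), δ := by
      refine Finset.sum_le_sum fun j hj => ?_
      rw [Finset.mem_filter] at hj
      exact (not_le.1 hj.2).le
    refine h2.trans ?_
    rw [Finset.sum_const, nsmul_eq_mul]
    have h3 : (((Finset.range N).filter (fun j => ¬ δ ≤ v j)).card : ℝ) ≤ N := by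
      have := Finset.card_filter_le (Finset.range N) (fun j => ¬ δ ≤ v j)
      rw [Finset.card_range] at this
      exact_mod_cast this
    calc _ ≤ (N : ℝ) * δ := mul_le_mul_of_nonneg_right h3 hδ0.le
      _ = 1 / (2 * (u : ℝ) ^ 2) := by
          rw [hδ]
          field_simp
  -- the classes
  set Ji : ℕ → Finset ℕ := fun i => (Finset.range N).filter
    (fun j => ((1 : ℝ) / 2) ^ (i + 1) ≤ v j ∧ v j ≤ (1 / 2) ^ i) with hJi
  have hidx : ∀ j ∈ J, ∃ i ∈ Finset.range (2 * u + 1),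
      ((1 : ℝ) / 2) ^ (i + 1) ≤ v j ∧ v j ≤ (1 / 2) ^ i := by
    intro j hj
    rw [hJ, Finset.mem_filter, Finset.mem_range] at hj
    obtain ⟨hjN, hjv⟩ := hj
    obtain ⟨i, hi1, hi2⟩ := exists_nat_pow_near_of_lt_one (x := v j) (y := 1 / 2)
      (by linarith) (hv1 j hjN) (by norm_num) (by norm_num)
    refine ⟨i, ?_, hi1.le, hi2⟩
    rw [Finset.mem_range]
    have h4 : δ ≤ (1 / 2 : ℝ) ^ i := hjv.trans hi2
    have h5 : (2 : ℝ) ^ i ≤ 2 * (u : ℝ) ^ 2 * N := by
      have h6 : (2 : ℝ) ^ i * (1 / 2) ^ i = 1 := by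
        rw [← mul_pow]; norm_num
      have h7 : 2 * (u : ℝ) ^ 2 * N * δ = 1 := by
        rw [hδ]
        field_simp
      have h8 : 2 * (u : ℝ) ^ 2 * N * δ ≤ 2 * (u : ℝ) ^ 2 * N * (1 / 2) ^ i :=
        mul_le_mul_of_nonneg_left h4 (by positivity)
      have h9 : (2 : ℝ) ^ i * (1 / 2) ^ i ≤ 2 * (u : ℝ) ^ 2 * N * (1 / 2) ^ i :=
        (h6.trans h7.symm).le.trans h8
      exact le_of_mul_le_mul_right h9 (by positivity)
    have h6 : (2 : ℝ) * (u : ℝ) ^ 2 ≤ 2 ^ u := by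
      exact_mod_cast LCR_two (show 7 ≤ u by omega)
    have h7 : (2 : ℝ) ^ i ≤ 2 ^ (2 * u) := by
      calc (2 : ℝ) ^ i ≤ 2 * (u : ℝ) ^ 2 * N := h5
        _ ≤ 2 ^ u * N := mul_le_mul_of_nonneg_right h6 hNpos.le
        _ = 2 ^ (2 * u) := by rw [hNR, ← pow_add]; congr 1; omega
    have h8 := (pow_le_pow_iff_right₀ (show (1 : ℝ) < 2 by norm_num)).1 h7
    omega
  have h2 : ∑ j ∈ J, v j ≤ ∑ i ∈ Finset.range (2 * u + 1), ∑ j ∈ Ji i, v j := by
    have hnn : ∀ j ∈ Finset.range N, ∀ i : ℕ,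
        0 ≤ (if ((1 : ℝ) / 2) ^ (i + 1) ≤ v j ∧ v j ≤ (1 / 2) ^ i then v j else 0) := by
      intro j hj i
      split_ifs
      · exact hv0 j (Finset.mem_range.1 hj)
      · exact le_rfl
    have hJN : J ⊆ Finset.range N := Finset.filter_subset _ _
    calc ∑ j ∈ J, v j ≤ ∑ j ∈ J, ∑ i ∈ Finset.range (2 * u + 1),
          (if ((1 : ℝ) / 2) ^ (i + 1) ≤ v j ∧ v j ≤ (1 / 2) ^ i then v j else 0) := by
          refine Finset.sum_le_sum fun j hj => ?_
          obtain ⟨i, hi, hij⟩ := hidx j hj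
          refine le_trans ?_ (Finset.single_le_sum (f := fun i =>
            (if ((1 : ℝ) / 2) ^ (i + 1) ≤ v j ∧ v j ≤ (1 / 2) ^ i then v j else 0))
            (fun i _ => hnn j (hJN hj) i) hi)
          rw [if_pos hij]
      _ ≤ ∑ j ∈ Finset.range N, ∑ i ∈ Finset.range (2 * u + 1),
          (if ((1 : ℝ) / 2) ^ (i + 1) ≤ v j ∧ v j ≤ (1 / 2) ^ i then v j else 0) :=
          Finset.sum_le_sum_of_subset_of_nonneg hJN
            fun j hj _ => Finset.sum_nonneg fun i _ => hnn j hj i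
      _ = ∑ i ∈ Finset.range (2 * u + 1), ∑ j ∈ Finset.range N,
          (if ((1 : ℝ) / 2) ^ (i + 1) ≤ v j ∧ v j ≤ (1 / 2) ^ i then v j else 0) :=
          Finset.sum_comm
      _ = _ := by
          refine Finset.sum_congr rfl fun i _ => ?_
          rw [hJi]
          simp only
          rw [Finset.sum_filter]
  have h3 : ∀ i ∈ Finset.range (2 * u + 1), ∑ j ∈ Ji i, v j ≤ 2 / (u : ℝ) ^ 4 := by
    intro i hi
    rw [Finset.mem_range] at hi
    have h4 := hcon i (by omega)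
    have hpi : (0 : ℝ) < (1 / 2) ^ i := by positivity
    have h5 : ∑ j ∈ Ji i, v j ≤ ((Ji i).card : ℝ) * (1 / 2) ^ i := by
      rw [← nsmul_eq_mul, ← Finset.sum_const]
      refine Finset.sum_le_sum fun j hj => ?_
      rw [hJi] at hj
      simp only [Finset.mem_filter] at hj
      exact hj.2.2
    refine h5.trans ?_
    have h6 : (Ji i).card ≤ ((Finset.range N).filter
        (fun j => ((1 : ℝ) / 2) ^ (i + 1) ≤ v j)).card := by
      apply Finset.card_le_card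
      intro j hj
      rw [hJi] at hj
      simp only [Finset.mem_filter] at hj
      exact Finset.mem_filter.2 ⟨hj.1, hj.2.1⟩
    rcases Nat.eq_zero_or_pos (Ji i).card with h7 | h7
    · rw [h7]
      simp
      positivity
    · have h8 : (1 : ℝ) ≤ (((Finset.range N).filter
          (fun j => ((1 : ℝ) / 2) ^ (i + 1) ≤ v j)).card : ℝ) := by
        exact_mod_cast (show 1 ≤ _ from le_trans h7 h6)
      have h9 : (((Finset.range N).filter
          (fun j => ((1 : ℝ) / 2) ^ (i + 1) ≤ v j)).card : ℝ) <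
            1 / ((u : ℝ) ^ 4 * (1 / 2) ^ (i + 1)) := by
        rcases lt_max_iff.1 h4 with h10 | h10
        · linarith
        · exact h10
      have h10 : ((Ji i).card : ℝ) ≤ 1 / ((u : ℝ) ^ 4 * (1 / 2) ^ (i + 1)) := by
        have : ((Ji i).card : ℝ) ≤ (((Finset.range N).filter
          (fun j => ((1 : ℝ) / 2) ^ (i + 1) ≤ v j)).card : ℝ) := by exact_mod_cast h6
        linarith
      calc ((Ji i).card : ℝ) * (1 / 2) ^ i ≤ 1 / ((u : ℝ) ^ 4 * (1 / 2) ^ (i + 1)) * (1 / 2) ^ i :=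
            mul_le_mul_of_nonneg_right h10 hpi.le
        _ = 2 / (u : ℝ) ^ 4 := by
            have h11 : ((1 : ℝ) / 2) ^ (i + 1) = (1 / 2) ^ i * (1 / 2) := pow_succ _ _
            rw [h11]
            field_simp
  have h4 : ∑ i ∈ Finset.range (2 * u + 1), ∑ j ∈ Ji i, v j ≤ (2 * u + 1) * (2 / (u : ℝ) ^ 4) := by
    refine (Finset.sum_le_sum h3).trans ?_
    rw [Finset.sum_const, Finset.card_range, nsmul_eq_mul]
    push_cast
    exact le_rfl
  have h5 : 1 / (u : ℝ) ^ 2 ≤ (2 * u + 1) * (2 / (u : ℝ) ^ 4) + 1 / (2 * (u : ℝ) ^ 2) := by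
    linarith
  have h6 : (2 * (u : ℝ) + 1) * (2 / (u : ℝ) ^ 4) < 1 / (2 * (u : ℝ) ^ 2) := by
    rw [← mul_div_assoc, div_lt_div_iff₀ (by positivity) (by positivity)]
    have h7 : (u : ℝ) ^ 4 = u ^ 2 * u ^ 2 := by ring
    rw [h7]
    have h8 : 0 < (u : ℝ) ^ 2 := by positivity
    nlinarith
  have h7 : 1 / (u : ℝ) ^ 2 = 1 / (2 * (u : ℝ) ^ 2) + 1 / (2 * (u : ℝ) ^ 2) := by
    field_simp
    norm_num
  linarith

theorem LCR_Mt {u : ℕ} (hu : 1 ≤ u) : ((Mt u : ℕ) : ℝ) + 2 ≤ 66 * (u : ℝ) ^ 2 := by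
  have h : Mt u + 2 ≤ 66 * u ^ 2 := by
    unfold Mt
    nlinarith
  exact_mod_cast h

theorem LCR_poly {r : ℝ} (hr : 1 < r) : ∃ C : ℝ, 0 < C ∧ ∀ u : ℕ, (u : ℝ) ^ 3 ≤ C * r ^ u := by
  have h := tendsto_pow_const_div_const_pow_of_one_lt 3 hr
  obtain ⟨C, hC⟩ := h.bddAbove_range
  refine ⟨max C 1, by positivity, fun u => ?_⟩
  have h1 := hC ⟨u, rfl⟩
  simp only at h1
  have hru : (0 : ℝ) < r ^ u := by positivity
  rw [div_le_iff₀ hru] at h1
  exact h1.trans (mul_le_mul_of_nonneg_right (le_max_left _ _) hru.le)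

theorem LCR_BB {F : Set Pl} (hF : BM F) : BB (F.indicator 1) := by
  obtain ⟨h1, h2⟩ := hF
  refine ⟨measurable_one.indicator h1, ?_⟩
  obtain ⟨R, hR⟩ := h2.exists_norm_le
  refine ⟨max 1 R, fun x => ?_, fun x hx => ?_⟩
  · by_cases h : x ∈ F
    · rw [Set.indicator_of_mem h]
      simp
    · rw [Set.indicator_of_notMem h]
      simp
  · rw [Set.indicator_of_notMem]
    intro h
    have := hR x h
    have := le_max_right 1 R
    linarith

theorem hLCR (hYB : StYB) (hLGY : StLGY) (hLPG : StLPG) (hLCT : StLCT) : StLCR := by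
  intro A σ q Cf hA hσ hσq hq hCf
  obtain ⟨u₁, C, ε, hC, hε, hmain⟩ := hLCT A σ q Cf hA hσ hσq hq hCf
  have hr1 : (1 : ℝ) < (2 : ℝ) ^ (ε / 2) := Real.one_lt_rpow (by norm_num) (by linarith)
  obtain ⟨C₀, hC₀, hpoly⟩ := LCR_poly hr1
  refine ⟨max u₁ 66, 198 * C₀ * C, ε / 2, by positivity, by linarith, ?_⟩
  intro u K s c m F hu hSlo hcm hK hF hCtl
  have hu1 : u₁ ≤ u := (le_max_left _ _).trans hu
  have hu66 : 66 ≤ u := (le_max_right _ _).trans hu
  have huR : (66 : ℝ) ≤ u := by exact_mod_cast hu66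
  have hup : (0 : ℝ) < u := by linarith
  have hMt := LCR_Mt (show 1 ≤ u by omega)
  have hMt0 : (0 : ℝ) < (Mt u : ℝ) + 2 := by positivity
  classical
  set η : ℕ → ℝ := fun i => (1 / 2 : ℝ) ^ (i + 1) / 18 with hη
  set m₁ : ℕ → ℝ := fun i => max 1 (1 / ((u : ℝ) ^ 4 * (1 / 2) ^ (i + 1))) / ((Mt u : ℝ) + 2)
    with hm₁
  set S : ℕ → ℕ → ℕ → Set Pl := fun i τ k => {x | m₁ i ≤ ({j : ℕ | j < 2 ^ u ∧
        Hit (s j) (c j) (m j) u k (CU F (s j) (m j) u (η i) τ k) x}.ncard : ℝ)} with hS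
  set X : ℕ → Set Pl := fun k => {x | 1 / (u : ℝ) ^ 2 ≤ ∑ j ∈ Finset.range (2 ^ u),
        Y (s j) (c j) (m j) (1 / (2 : ℝ) ^ u) k (F.indicator 1) x} with hX
  set I := (Finset.range (2 * u + 1)).filter (fun i => Nm u (η i) (m₁ i)) with hI
  have hℓ : (0 : ℝ) < 1 / 2 ^ u := by positivity
  -- the covering
  have hcov : ∀ k : ℕ, X k ⊆ ⋃ i ∈ I, ⋃ τ ∈ Finset.range (Mt u + 2), S i τ k := by
    intro k x hx
    have hv : ∀ j < 2 ^ u, 0 ≤ Y (s j) (c j) (m j) (1 / (2 : ℝ) ^ u) k (F.indicator 1) x ∧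
        Y (s j) (c j) (m j) (1 / (2 : ℝ) ^ u) k (F.indicator 1) x ≤ 1 := by
      intro j hj
      obtain ⟨-, -, y1, y2, -⟩ := hYB (s j) (c j) (m j) (1 / (2 : ℝ) ^ u) k (F.indicator 1)
        (hSlo.1 j hj) hℓ (LCR_BB hF)
      refine ⟨y1 (fun z => ?_) x, y2 1 (fun z => ?_) x⟩
      · exact Set.indicator_nonneg (fun _ _ => by simp) z
      · by_cases h : z ∈ F
        · rw [Set.indicator_of_mem h]; simp
        · rw [Set.indicator_of_notMem h]; norm_num
    obtain ⟨i, hi, hcard⟩ := LCR_pig hu66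
      (fun j => Y (s j) (c j) (m j) (1 / (2 : ℝ) ^ u) k (F.indicator 1) x)
      (fun j hj => (hv j hj).1) (fun j hj => (hv j hj).2) hx
    set J := (Finset.range (2 ^ u)).filter (fun j => ((1 : ℝ) / 2) ^ (i + 1) ≤
      Y (s j) (c j) (m j) (1 / (2 : ℝ) ^ u) k (F.indicator 1) x) with hJ
    have hηi : 0 < η i := by rw [hη]; positivity
    have hτ : ∀ j ∈ J, ∃ τ ≤ Mt u + 1,
        Hit (s j) (c j) (m j) u k (CU F (s j) (m j) u (η i) τ k) x := by
      intro j hj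
      rw [hJ, Finset.mem_filter, Finset.mem_range] at hj
      have g1 := hLGY (s j) (c j) (m j) u k F ((1 / 2) ^ (i + 1)) x (hSlo.1 j hj.1)
        (hcm j hj.1).2 hF (by positivity) hj.2
      exact hLPG F (s j) (c j) (m j) u (η i) k x (by omega) hηi g1
    set T : ℕ → Finset ℕ := fun τ => (Finset.range (2 ^ u)).filter (fun j =>
      Hit (s j) (c j) (m j) u k (CU F (s j) (m j) u (η i) τ k) x) with hT
    have hJT : J ⊆ (Finset.range (Mt u + 2)).biUnion T := by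
      intro j hj
      obtain ⟨τ, hτ1, hτ2⟩ := hτ j hj
      rw [Finset.mem_biUnion]
      refine ⟨τ, Finset.mem_range.2 (by omega), ?_⟩
      rw [hT]
      simp only [Finset.mem_filter]
      exact ⟨(Finset.mem_filter.1 hj).1, hτ2⟩
    have hex : ∃ τ ∈ Finset.range (Mt u + 2), m₁ i ≤ ((T τ).card : ℝ) := by
      by_contra hcon
      push Not at hcon
      have g1 : (J.card : ℝ) ≤ ∑ τ ∈ Finset.range (Mt u + 2), ((T τ).card : ℝ) := by
        have := (Finset.card_le_card hJT).trans Finset.card_biUnion_le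
        exact_mod_cast this
      have g2 : ∑ τ ∈ Finset.range (Mt u + 2), ((T τ).card : ℝ) <
          ∑ _τ ∈ Finset.range (Mt u + 2), m₁ i :=
        Finset.sum_lt_sum_of_nonempty ⟨0, Finset.mem_range.2 (by omega)⟩ hcon
      rw [Finset.sum_const, Finset.card_range, nsmul_eq_mul] at g2
      have g3 : (((Mt u + 2 : ℕ) : ℝ)) * m₁ i =
          max 1 (1 / ((u : ℝ) ^ 4 * (1 / 2) ^ (i + 1))) := by
        rw [hm₁]
        push_cast
        field_simp
      rw [g3] at g2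
      linarith
    obtain ⟨τ, hτr, hτc⟩ := hex
    have hTs : {j : ℕ | j < 2 ^ u ∧
        Hit (s j) (c j) (m j) u k (CU F (s j) (m j) u (η i) τ k) x} = ↑(T τ) := by
      ext j
      rw [hT]
      simp
    have hTc : ((T τ).card : ℝ) ≤ 2 ^ u := by
      have : (T τ).card ≤ 2 ^ u := by
        have := Finset.card_filter_le (Finset.range (2 ^ u)) (fun j =>
          Hit (s j) (c j) (m j) u k (CU F (s j) (m j) u (η i) τ k) x)
        rwa [Finset.card_range] at this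
      exact_mod_cast this
    simp only [Set.mem_iUnion]
    refine ⟨i, ?_, τ, hτr, ?_⟩
    · rw [hI, Finset.mem_filter, Finset.mem_range]
      refine ⟨by omega, hηi, ?_, ?_, ?_, hτc.trans hTc⟩
      · rw [hη]
        have : ((1 : ℝ) / 2) ^ (i + 1) ≤ 1 := pow_le_one₀ (by norm_num) (by norm_num)
        simp only
        linarith
      · -- `1/u^10 ≤ m₁ η`
        have g1 : 1 / ((u : ℝ) ^ 4 * (1 / 2) ^ (i + 1)) / (66 * (u : ℝ) ^ 2) *
            ((1 / 2) ^ (i + 1) / 18) ≤ m₁ i * η i := by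
          apply mul_le_mul_of_nonneg_right _ (by positivity)
          rw [hm₁]
          simp only
          calc 1 / ((u : ℝ) ^ 4 * (1 / 2) ^ (i + 1)) / (66 * (u : ℝ) ^ 2) ≤
                1 / ((u : ℝ) ^ 4 * (1 / 2) ^ (i + 1)) / ((Mt u : ℝ) + 2) :=
              div_le_div_of_nonneg_left (by positivity) hMt0 hMt
            _ ≤ _ := div_le_div_of_nonneg_right (le_max_right _ _) hMt0.le
        refine le_trans ?_ g1
        have g2 : 1 / ((u : ℝ) ^ 4 * (1 / 2) ^ (i + 1)) / (66 * (u : ℝ) ^ 2) *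
            ((1 / 2) ^ (i + 1) / 18) = 1 / (1188 * (u : ℝ) ^ 6) := by
          field_simp
          norm_num
        rw [g2]
        apply one_div_le_one_div_of_le (by positivity)
        have g3 : (u : ℝ) ^ 10 = u ^ 4 * u ^ 6 := by ring
        rw [g3]
        apply mul_le_mul_of_nonneg_right _ (by positivity)
        have g4 : (66 : ℝ) ^ 4 ≤ (u : ℝ) ^ 4 := pow_le_pow_left₀ (by norm_num) huR 4
        refine le_trans ?_ g4
        norm_num
      · -- `1/u^3 ≤ m₁`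
        have g1 : 1 / (66 * (u : ℝ) ^ 2) ≤ m₁ i := by
          rw [hm₁]
          simp only
          calc 1 / (66 * (u : ℝ) ^ 2) ≤ 1 / ((Mt u : ℝ) + 2) :=
              div_le_div_of_nonneg_left (by norm_num) hMt0 hMt
            _ ≤ _ := div_le_div_of_nonneg_right (le_max_left _ _) hMt0.le
        refine le_trans ?_ g1
        apply one_div_le_one_div_of_le (by positivity)
        have g3 : (u : ℝ) ^ 3 = u * u ^ 2 := by ring
        rw [g3]
        exact mul_le_mul_of_nonneg_right huR (by positivity)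
    · rw [hS]
      show m₁ i ≤ _
      rw [hTs, Set.ncard_coe_finset]
      exact hτc
  -- the sum
  set B : ℝ≥0∞ := ENNReal.ofReal (C * (2 : ℝ) ^ ((q - ε) * u)) * volume F with hB
  have hstep : ∀ i ∈ I, ∀ τ ∈ Finset.range (Mt u + 2),
      ∑ k ∈ Finset.range K, volume (S i τ k) ≤ B := by
    intro i hi τ hτ
    rw [hI, Finset.mem_filter] at hi
    rw [Finset.mem_range] at hτ
    exact hmain u K τ s c m F (η i) (m₁ i) hu1 hSlo hcm hK hF hCtl hi.2 (by omega)
  have hbound : ∑ k ∈ Finset.range K, volume (X k) ≤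
      ∑ i ∈ I, ∑ τ ∈ Finset.range (Mt u + 2), ∑ k ∈ Finset.range K, volume (S i τ k) := by
    have g1 : ∀ k ∈ Finset.range K, volume (X k) ≤
        ∑ i ∈ I, ∑ τ ∈ Finset.range (Mt u + 2), volume (S i τ k) := by
      intro k _
      refine (measure_mono (hcov k)).trans ?_
      refine (measure_biUnion_finset_le _ _).trans ?_
      refine Finset.sum_le_sum fun i _ => ?_
      exact measure_biUnion_finset_le _ _
    refine (Finset.sum_le_sum g1).trans ?_
    rw [Finset.sum_comm]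
    refine Finset.sum_le_sum fun i _ => ?_
    rw [Finset.sum_comm]
  refine hbound.trans ?_
  have h1 : ∑ i ∈ I, ∑ τ ∈ Finset.range (Mt u + 2), ∑ k ∈ Finset.range K, volume (S i τ k) ≤
      ((2 * u + 1 : ℕ) : ℝ≥0∞) * (((Mt u + 2 : ℕ) : ℝ≥0∞) * B) := by
    have g1 : ∀ i ∈ I, ∑ τ ∈ Finset.range (Mt u + 2), ∑ k ∈ Finset.range K, volume (S i τ k) ≤
        ((Mt u + 2 : ℕ) : ℝ≥0∞) * B := by
      intro i hi
      refine (Finset.sum_le_sum (hstep i hi)).trans ?_
      rw [Finset.sum_const, Finset.card_range, nsmul_eq_mul]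
    refine (Finset.sum_le_sum g1).trans ?_
    rw [Finset.sum_const, nsmul_eq_mul]
    have g2 : I.card ≤ 2 * u + 1 := by
      have := Finset.card_filter_le (Finset.range (2 * u + 1)) (fun i => Nm u (η i) (m₁ i))
      rwa [Finset.card_range] at this
    exact mul_le_mul_left (by exact_mod_cast g2) _
  refine h1.trans ?_
  rw [hB, ← mul_assoc, ← mul_assoc]
  apply mul_le_mul_left
  rw [← Nat.cast_mul, ← ENNReal.ofReal_natCast, ← ENNReal.ofReal_mul (by positivity)]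
  apply ENNReal.ofReal_le_ofReal
  have h2 : (((2 * u + 1) * (Mt u + 2) : ℕ) : ℝ) ≤ 198 * (u : ℝ) ^ 3 := by
    push_cast
    have g1 : (2 * (u : ℝ) + 1) ≤ 3 * u := by linarith
    calc (2 * (u : ℝ) + 1) * ((Mt u : ℝ) + 2) ≤ (3 * u) * (66 * (u : ℝ) ^ 2) :=
          mul_le_mul g1 hMt hMt0.le (by positivity)
      _ = 198 * (u : ℝ) ^ 3 := by ring
  have h3 := hpoly u
  rw [← Real.rpow_mul_natCast (by norm_num : (0 : ℝ) ≤ 2)] at h3
  have h4 : (0 : ℝ) < C * (2 : ℝ) ^ ((q - ε) * u) := by positivity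
  calc (((2 * u + 1) * (Mt u + 2) : ℕ) : ℝ) * (C * (2 : ℝ) ^ ((q - ε) * u)) ≤
        198 * (u : ℝ) ^ 3 * (C * (2 : ℝ) ^ ((q - ε) * u)) := mul_le_mul_of_nonneg_right h2 h4.le
    _ ≤ 198 * (C₀ * (2 : ℝ) ^ (ε / 2 * (u : ℝ))) * (C * (2 : ℝ) ^ ((q - ε) * u)) := by
        apply mul_le_mul_of_nonneg_right _ h4.le
        linarith
    _ = 198 * C₀ * C * (2 : ℝ) ^ ((q - ε / 2) * u) := by
        have : (2 : ℝ) ^ ((q - ε / 2) * u) =
            (2 : ℝ) ^ (ε / 2 * (u : ℝ)) * (2 : ℝ) ^ ((q - ε) * u) := by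
          rw [← Real.rpow_add (by norm_num)]
          congr 1
          ring
        rw [this]
        ring

end Pool.Agent.Helper81.RL
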